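import Pool.Agent.Helper89.OC.St1

/-!
# Project OC (MP_2b6189_al), module TS2: invariant vectors of the torus orbits
-/

set_option autoImplicit false

namespace Pool.Agent.Helper95.OC

open Matrix ComplexConjugate Pool.Agent.Helper94.YF Pool.Agent.Helper94.YG Pool.Agent.Helper89.OS
  Pool.Agent.Helper89.OC

/-- module TS2 -/
theorem hTS2 : StTS2 := by
  classical
  intro _ I _ _ p _ X Q hB k hk
  have hk' : X.y k ≠ 0 ∧ X.t k = 1 ∧ k ≠ X.o := by
    unfold Ks at hk
    simpa using hk
  obtain ⟨hyk, htk, hko⟩ := hk'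
  have hHEC : StHEC := Pool.Agent.Helper8.OS.hHEC
  have hSTL : StSTL := Pool.Agent.Helper47.OS.hSTL
  obtain ⟨hra, hrb⟩ := Pool.Agent.Helper94.YF.hRAT'
  have hp := X.prime
  have hp1 : 1 ≤ p := hp.one_lt.le
  have hcardU : (Fintype.card (ZMod (p ^ 1))ˣ : ℂ) = (p : ℂ) - 1 := by
    rw [ZMod.card_units_eq_totient, pow_one, Nat.totient_prime hp, Nat.cast_sub hp1]
    norm_num
  have hinj : ∀ c, Function.Injective (X.pi c) := by
    intro c i j h
    have h1 := congrArg (X.pi c⁻¹) h
    rwa [← X.pi_mul, ← X.pi_mul, inv_mul_cancel, X.pi_one, X.pi_one] at h1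
  obtain ⟨f, hf⟩ : ∃ f : I → ℤ, ∀ i, f i =
      ((Finset.univ.filter fun c => X.pi c k = i).card : ℤ) := ⟨_, fun i => rfl⟩
  have hfinv : ∀ c i, f (X.pi c i) = f i := by
    intro c' i
    rw [hf, hf]
    congr 1
    symm
    refine Finset.card_bij (fun c _ => c' * c) ?_ ?_ ?_
    · intro c hc
      simp only [Finset.mem_filter, Finset.mem_univ, true_and] at hc ⊢
      rw [X.pi_mul, hc]
    · intro a _ b _ h
      exact mul_left_cancel h
    · intro b hb
      refine ⟨c'⁻¹ * b, ?_, mul_inv_cancel_left c' b⟩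
      simp only [Finset.mem_filter, Finset.mem_univ, true_and] at hb ⊢
      rw [X.pi_mul, hb, ← X.pi_mul, inv_mul_cancel, X.pi_one]
  have hfex : ∀ i, f i ≠ 0 → ∃ c, X.pi c k = i := by
    intro i hi
    by_contra hno
    push Not at hno
    apply hi
    rw [hf, Nat.cast_eq_zero, Finset.card_eq_zero, Finset.filter_eq_empty_iff]
    intro c _
    exact hno c
  have hfs : ∀ i, f i ≠ 0 → X.t i = 1 := by
    intro i hi
    obtain ⟨c, hc⟩ := hfex i hi
    rw [← hc, X.pi_t, htk, one_pow]
  have hfy : ∀ i, f i ≠ 0 → X.y i ≠ 0 := by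
    intro i hi
    obtain ⟨c, hc⟩ := hfex i hi
    rw [← hc, X.pi_y]
    exact hyk
  have hfo : f X.o = 0 := by
    by_contra h
    obtain ⟨c, hc⟩ := hfex _ h
    exact hko (hinj c (hc.trans (X.pi_o c).symm))
  have hsumf : ∀ g : I → ℂ, ∑ i, g i * (f i : ℂ) = ∑ c, g (X.pi c k) := by
    intro g
    rw [← Finset.sum_fiberwise Finset.univ (fun c => X.pi c k) (fun c => g (X.pi c k))]
    refine Finset.sum_congr rfl fun i _ => ?_
    have h1 : ∀ c ∈ Finset.univ.filter (fun c => X.pi c k = i), g (X.pi c k) = g i := by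
      intro c hc
      rw [(Finset.mem_filter.1 hc).2]
    rw [Finset.sum_congr rfl h1, Finset.sum_const, nsmul_eq_mul, hf]
    push_cast
    ring
  have hFex : ∀ j, ∃ m : ℤ, (m : ℂ) = ∑ c, X.s j (X.pi c k) := by
    intro j
    apply hra
    · exact IsIntegral.sum _ fun c _ => X.s_int _ _
    · intro σ
      obtain ⟨c', hc'⟩ := X.gal σ
      rw [map_sum]
      refine Fintype.sum_equiv (Equiv.mulLeft c') _ _ fun c => ?_
      rw [hc', Equiv.coe_mulLeft, X.pi_mul]
  choose F hF using hFex
  have hF' : ∀ j, (F j : ℂ) = ∑ i, X.s j i * (f i : ℂ) := by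
    intro j
    rw [hF, hsumf]
  have hFo : (F X.o : ℂ) = ((p : ℂ) - 1) * X.y k := by
    rw [hF]
    have h1 : ∀ c ∈ (Finset.univ : Finset (ZMod (p ^ 1))ˣ),
        X.s X.o (X.pi c k) = (X.y k : ℂ) := by
      intro c _
      rw [X.s_symm, X.s_o, X.pi_y]
    rw [Finset.sum_congr rfl h1, Finset.sum_const, nsmul_eq_mul, Finset.card_univ, hcardU]
  obtain ⟨hS1, hS2⟩ := hSTL hHEC I p X Q hB f F hfinv hfs (fun j _ => hF' j)
  have hyo : X.y X.o ≠ 0 := by
    intro h
    apply hB.x_nd
    rw [h]
    exact dvd_zero _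
  have hA : ∀ j, X.y j ≠ 0 → X.t j = 1 → j ≠ X.o → ((p : ℂ) - X.y X.o) *
      ((p : ℂ) * (f j : ℂ) - F j) = ((p : ℂ) - 1) * (X.y k * X.y j) := by
    intro j hj htj hjo
    have h1 := hS1 j hj htj
    rw [if_neg hjo, hfo] at h1
    have h2 := congrArg (fun z : ℤ => (z : ℂ)) h1
    push_cast at h2
    rw [hFo] at h2
    rw [h2]
    ring
  -- f is constant on the orbit
  have hfk : f k ≠ 0 := by
    rw [hf]
    have h1 : (1 : (ZMod (p ^ 1))ˣ) ∈ Finset.univ.filter (fun c => X.pi c k = k) := by
      rw [Finset.mem_filter]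
      exact ⟨Finset.mem_univ _, X.pi_one k⟩
    have h2 := Finset.card_pos.2 ⟨_, h1⟩
    omega
  have hfkC : (f k : ℂ) ≠ 0 := by exact_mod_cast hfk
  have hforb : ∀ i, f i = if i ∈ Orb X k then f k else 0 := by
    intro i
    split_ifs with h
    · have h' : ∃ c, X.pi c k = i := by
        unfold Orb at h
        simpa using h
      obtain ⟨c, hc⟩ := h'
      rw [← hc, hfinv]
    · by_contra h1
      obtain ⟨c, hc⟩ := hfex i h1
      apply h
      unfold Orb
      simp only [Finset.mem_filter, Finset.mem_univ, true_and]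
      exact ⟨c, hc⟩
  have hsumg : ∀ g : I → ℂ, ∑ i, g i * (f i : ℂ) = (f k : ℂ) * ∑ i ∈ Orb X k, g i := by
    intro g
    rw [Finset.mul_sum, ← Finset.sum_filter_add_sum_filter_not Finset.univ
      (fun i => i ∈ Orb X k) (fun i => g i * (f i : ℂ))]
    have h1 : ∑ i ∈ Finset.univ.filter (fun i => ¬ i ∈ Orb X k), g i * (f i : ℂ) = 0 := by
      apply Finset.sum_eq_zero
      intro i hi
      rw [hforb, if_neg (Finset.mem_filter.1 hi).2]
      simp
    have h2 : Finset.univ.filter (fun i => i ∈ Orb X k) = Orb X k := by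
      ext i
      simp
    rw [h1, add_zero, h2]
    refine Finset.sum_congr rfl fun i hi => ?_
    rw [hforb i, if_pos hi]
    ring
  have hcnt : (p : ℂ) - 1 = (f k : ℂ) * ((Orb X k).card : ℂ) := by
    have h1 := hsumg (fun _ => 1)
    rw [hsumf] at h1
    simp only [Finset.sum_const, nsmul_eq_mul, mul_one, Finset.card_univ] at h1
    rw [← h1, hcardU]
  -- the vector E
  have hg : ((gX X : ℤ) : ℂ) = (p : ℂ) - X.y X.o := by
    unfold gX
    push_cast
    ring
  obtain ⟨E, hE⟩ : ∃ E : I → ℂ, ∀ i, E i = ((p : ℂ) - X.y X.o) * (f i : ℂ) +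
      (if i = X.o then ((p : ℂ) - 1) * X.y k else 0) := ⟨_, fun i => rfl⟩
  have hsE : ∀ j, ∑ i, X.s j i * E i = ((p : ℂ) - X.y X.o) * F j +
      ((p : ℂ) - 1) * X.y k * X.y j := by
    intro j
    have h1 : ∀ i ∈ (Finset.univ : Finset I), X.s j i * E i =
        ((p : ℂ) - X.y X.o) * (X.s j i * (f i : ℂ)) +
        (if i = X.o then X.s j i * (((p : ℂ) - 1) * X.y k) else 0) := by
      intro i _
      rw [hE]
      split_ifs <;> ring
    rw [Finset.sum_congr rfl h1, Finset.sum_add_distrib, ← Finset.mul_sum, ← hF',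
      Finset.sum_ite_eq' Finset.univ X.o (fun i => X.s j i * (((p : ℂ) - 1) * X.y k)),
      if_pos (Finset.mem_univ _), X.s_o]
    ring
  have hEeq : ∀ i, ∑ k, X.s i k * E k = (p : ℂ) * E i := by
    intro j
    rw [hsE]
    by_cases hyj : X.y j = 0
    · have h1 : f j = 0 := by
        by_contra h
        exact hfy j h hyj
      have h2 : j ≠ X.o := by
        intro h
        rw [h] at hyj
        exact hyo hyj
      have h3 : (F j : ℂ) = 0 := by
        rw [hF]
        apply Finset.sum_eq_zero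
        intro c _
        rw [X.s_symm]
        apply hB.sup _ _ _ hyj
        rw [X.pi_y]
        exact hyk
      rw [hE, h3, h1, if_neg h2, hyj]
      simp
    · by_cases htj : X.t j = 1
      · by_cases hjo : j = X.o
        · rw [hjo, hFo, hE, if_pos rfl, hfo]
          push_cast
          ring
        · have h1 := hA j hyj htj hjo
          rw [hE, if_neg hjo]
          linear_combination (-1 : ℂ) * h1
      · have h1 := hS2 j hyj htj
        rw [← hF', hFo, hfo] at h1
        have h2 : f j = 0 := by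
          by_contra h
          exact htj (hfs j h)
        have h3 : j ≠ X.o := by
          intro h
          rw [h] at htj
          exact htj X.t_o
        rw [hE, if_neg h3, h2]
        push_cast at h1 ⊢
        linear_combination h1
  have hEt : ∀ k, E k ≠ 0 → X.t k = 1 := by
    intro i hi
    by_cases hio : i = X.o
    · rw [hio]
      exact X.t_o
    · by_cases hfi : f i = 0
      · exfalso
        apply hi
        rw [hE, hfi, if_neg hio]
        simp
      · exact hfs i hfi
  -- the vector E is f k times the vector of the statement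
  have hEE : ∀ l, E l = (f k : ℂ) * ((gX X : ℂ) * (if l ∈ Orb X k then 1 else 0) +
      ((Orb X k).card : ℂ) * X.y k * (if l = X.o then 1 else 0)) := by
    intro l
    rw [hE, hforb l, hcnt, hg]
    split_ifs <;> push_cast <;> ring
  refine ⟨?_, ?_⟩
  · intro j
    have h1 := hEeq j
    rw [hEE j] at h1
    have h2 : ∑ l, X.s j l * E l = (f k : ℂ) * ∑ l, X.s j l *
        ((gX X : ℂ) * (if l ∈ Orb X k then 1 else 0) +
          ((Orb X k).card : ℂ) * X.y k * (if l = X.o then 1 else 0)) := by
      rw [Finset.mul_sum]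
      refine Finset.sum_congr rfl fun l _ => ?_
      rw [hEE l]
      ring
    rw [h2] at h1
    apply mul_left_cancel₀ hfkC
    rw [h1]
    ring
  · intro j hj
    have hT := X.tor E hEeq hEt j hj
    have hchi : ∑ i, E i * X.chi j i = ((p : ℂ) - X.y X.o) *
        ((f k : ℂ) * ∑ i ∈ Orb X k, X.chi j i) + ((p : ℂ) - 1) * X.y k := by
      have h1 : ∀ i ∈ (Finset.univ : Finset I), E i * X.chi j i =
          ((p : ℂ) - X.y X.o) * (X.chi j i * (f i : ℂ)) +
          (if i = X.o then X.chi j i * (((p : ℂ) - 1) * X.y k) else 0) := by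
        intro i _
        rw [hE]
        split_ifs <;> ring
      rw [Finset.sum_congr rfl h1, Finset.sum_add_distrib, ← Finset.mul_sum, hsumg,
        Finset.sum_ite_eq' Finset.univ X.o (fun i => X.chi j i * (((p : ℂ) - 1) * X.y k)),
        if_pos (Finset.mem_univ _), X.chi_o, one_mul]
    rw [hchi, hcnt] at hT
    rw [hg]
    apply mul_left_cancel₀ hfkC
    linear_combination hT

end Pool.Agent.Helper95.OC
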